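import Mathlib
import Pool.Agent.K1H6.Lamp

/-!
# `𝔾_Y` is not the lamplighter group when `Y` is not abelian
-/

set_option autoImplicit false

namespace Pool.Agent.Results.MP_e17fb9_al.NotLamplighter

open Pool.Agent.K1H6.Lamp

/-- For every finite group `Y` which is not abelian, the group `𝔾_Y` generated by the automaton
`𝒜_Y` is not isomorphic to `Y ≀ ℤ`. In particular the statement of Q1 is false. -/
theorem result :
    (∀ (Y : Type) [Group Y] [Finite Y], (∃ y z : Y, y * z ≠ z * y) →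
      ¬ Nonempty (GY Y ≃* Lamplighter Y)) ∧
    ¬ ∀ (Y : Type) [Group Y] [Finite Y], 2 ≤ Nat.card Y → Nonempty (GY Y ≃* Lamplighter Y) := by
  have main : ∀ (Y : Type) [Group Y] [Finite Y], (∃ y z : Y, y * z ≠ z * y) →
      ¬ Nonempty (GY Y ≃* Lamplighter Y) := by
    rintro Y _ _ ⟨y, z, hyz⟩ ⟨e⟩
    refine hyz (comm_of_injective ((GY Y).subtype.comp e.symm.toMonoidHom) ?_ ?_ y z)
    · exact (GY Y).subtype_injective.comp e.symm.injective
    · intro g w
      exact length_of_mem_WY (GY_le_WY Y (e.symm g).2) w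
  refine ⟨main, fun h => main (Equiv.Perm (Fin 3)) ?_ (h _ ?_)⟩
  · exact ⟨Equiv.swap 0 1, Equiv.swap 1 2, by decide⟩
  · rw [Nat.card_perm, Nat.card_fin]
    decide

end Pool.Agent.Results.MP_e17fb9_al.NotLamplighter
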